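import Pool.Agent.H77.WD.Defs
import Pool.Agent.H63.MA.GKus

/-!
# [H77 WD GS] generators: existence

* `gs_exists`: `GS D Ω` exists (a maximal independent family of `S0`-units modulo `p`-th powers, `kk_surj`).


-/

set_option autoImplicit false
set_option linter.dupNamespace false

open scoped NumberField
open IsDedekindDomain
open scoped Classical

noncomputable section

namespace H77.WD

open H63.MA H38.BB H38.BG H57.PC H57.BRA

variable {K : Type} [Field K] [NumberField K] {Ω : Type} [Field Ω] [Algebra K Ω] [IsAlgClosure K Ω]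
  {p : ℕ} {ζ : K}

/-- independence modulo `p`-th powers -/
private def Ind (p : ℕ) {g : ℕ} (u : Fin g → Kˣ) : Prop :=
  ∀ θ : Fin g → ZMod p, θ ≠ 0 → ¬ IsPow p (∏ k, u k ^ (θ k).val)

omit [NumberField K] in
private theorem pow_val_add (hp : p.Prime) (u : Kˣ) (a b : ZMod p) :
    ∃ y : Kˣ, u ^ (a + b).val * y ^ p = u ^ a.val * u ^ b.val := by
  have : NeZero p := ⟨hp.ne_zero⟩
  rw [ZMod.val_add, ← pow_add]
  refine ⟨u ^ ((a.val + b.val) / p), ?_⟩
  rw [← pow_mul, ← pow_add, mul_comm ((a.val + b.val) / p) p, Nat.mod_add_div]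

omit [NumberField K] in
private theorem prod_val_add (hp : p.Prime) {g : ℕ} (u : Fin g → Kˣ) (a b : Fin g → ZMod p) :
    ∃ y : Kˣ, (∏ k, u k ^ (a k + b k).val) * y ^ p =
      (∏ k, u k ^ (a k).val) * ∏ k, u k ^ (b k).val := by
  choose y hy using fun k => pow_val_add hp (u k) (a k) (b k)
  refine ⟨∏ k, y k, ?_⟩
  rw [← Finset.prod_pow, ← Finset.prod_mul_distrib, ← Finset.prod_mul_distrib]
  exact Finset.prod_congr rfl fun k _ => hy k

private theorem ind_bd (hp : p.Prime) (S : Finset (Pl K)) : ∃ N : ℕ, ∀ (g : ℕ) (u : Fin g → Kˣ),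
    (∀ i, TUnit S (u i)) → Ind p u → g ≤ N := by
  have hp0 : NeZero p := ⟨hp.ne_zero⟩
  obtain ⟨U, hU1, hU2⟩ := unit_reps hp S
  refine ⟨U.card, fun g u hu hi => ?_⟩
  have hT : ∀ θ : Fin g → ZMod p, TUnit S (∏ k, u k ^ (θ k).val) := by
    intro θ v hv
    have h1 : ∀ s : Finset (Fin g), ord v (∏ k ∈ s, u k ^ (θ k).val) = 0 := by
      intro s
      induction s using Finset.induction_on with
      | empty => simp [ord]
      | insert a s ha ih =>
        rw [Finset.prod_insert ha, ord_mul, ih, ord_pow, hu a v hv, mul_zero, zero_add]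
    exact h1 _
  choose f hf y hy using fun θ => hU2 _ (hT θ)
  have hinj : Function.Injective fun θ : Fin g → ZMod p => (⟨f θ, hf θ⟩ : U) := by
    intro θ θ' h
    have h1 : f θ = f θ' := congrArg Subtype.val h
    by_contra hne
    have hd : θ - θ' ≠ 0 := sub_ne_zero.2 hne
    apply hi (θ - θ') hd
    obtain ⟨z, hz⟩ := prod_val_add hp u (θ - θ') θ'
    simp only [Pi.sub_apply, sub_add_cancel] at hz
    have h2 := hy θ
    have h3 := hy θ'
    rw [h3, h2, h1] at hz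
    refine ⟨y θ * z * (y θ')⁻¹, ?_⟩
    have h4 : (∏ k, u k ^ ((θ - θ') k).val) * (f θ' * y θ' ^ p) = f θ' * y θ ^ p * z ^ p := hz.symm
    rw [mul_pow, mul_pow, inv_pow]
    have h5 : (∏ k, u k ^ ((θ - θ') k).val) = f θ' * y θ ^ p * z ^ p * (f θ' * y θ' ^ p)⁻¹ :=
      eq_mul_inv_of_mul_eq h4
    rw [h5, mul_inv]
    have : f θ' * (f θ')⁻¹ = 1 := mul_inv_cancel _
    calc y θ ^ p * z ^ p * (y θ' ^ p)⁻¹ = (f θ' * (f θ')⁻¹) * (y θ ^ p * z ^ p * (y θ' ^ p)⁻¹) := by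
          rw [this, one_mul]
      _ = f θ' * y θ ^ p * z ^ p * ((f θ')⁻¹ * (y θ' ^ p)⁻¹) := by
          simp only [mul_assoc, mul_left_comm, mul_comm]
  have h1 := Fintype.card_le_of_injective _ hinj
  rw [Fintype.card_pi, Fintype.card_coe] at h1
  simp only [ZMod.card, Finset.prod_const, Finset.card_univ, Fintype.card_fin] at h1
  exact (Nat.lt_pow_self hp.one_lt).le.trans h1

private theorem ext_alg {G : Type} [CommGroup G] {g : ℕ} (u : Fin g → G) (t : Fin g → ℕ) (x y : G)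
    {p T m q : ℕ} (hp : 1 ≤ p) (hy : y ^ p = (∏ k, u k ^ t k) * x ^ T) (hq : T * m = 1 + p * q) :
    x = (∏ k, u k ^ ((p - 1) * (t k * m))) *
      (y ^ m * (x ^ q)⁻¹ * (∏ k, u k ^ (t k * m))⁻¹) ^ p := by
  have h5 : (∏ k, u k ^ t k) ^ m = ∏ k, u k ^ (t k * m) := by
    rw [← Finset.prod_pow]
    exact Finset.prod_congr rfl fun k _ => by rw [← pow_mul]
  have h6 : (∏ k, u k ^ ((p - 1) * (t k * m))) * (∏ k, u k ^ (t k * m)) =
      (∏ k, u k ^ (t k * m)) ^ p := by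
    rw [← Finset.prod_mul_distrib, ← Finset.prod_pow]
    refine Finset.prod_congr rfl fun k _ => ?_
    rw [← pow_add, ← pow_mul]
    congr 1
    obtain ⟨r, rfl⟩ : ∃ r, p = r + 1 := ⟨p - 1, (Nat.sub_add_cancel hp).symm⟩
    rw [Nat.add_sub_cancel]
    ring
  set A := ∏ k, u k ^ ((p - 1) * (t k * m))
  set B := ∏ k, u k ^ (t k * m)
  have h7 : (y ^ m) ^ p = B * (x * (x ^ q) ^ p) := by
    rw [← pow_mul, mul_comm m p, pow_mul, hy, mul_pow, h5, ← pow_mul, hq, pow_add, pow_one,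
      ← pow_mul, mul_comm q p]
  rw [mul_pow, mul_pow, inv_pow, inv_pow, ← h6, h7, mul_inv]
  have e1 : A * (B * (x * (x ^ q) ^ p) * ((x ^ q) ^ p)⁻¹ * (A⁻¹ * B⁻¹)) =
      (A * A⁻¹) * (B * B⁻¹) * (((x ^ q) ^ p) * ((x ^ q) ^ p)⁻¹) * x := by
    simp only [mul_assoc, mul_left_comm, mul_comm]
  rw [e1, mul_inv_cancel, mul_inv_cancel, mul_inv_cancel, one_mul, one_mul, one_mul]

omit [NumberField K] in
private theorem ind_ext (hp : p.Prime) {g : ℕ} (u : Fin g → Kˣ) (hu : Ind p u) (x : Kˣ)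
    (hx : ¬ ∃ (n : Fin g → ℕ) (y : Kˣ), x = (∏ i, u i ^ n i) * y ^ p) :
    Ind p (Fin.snoc u x : Fin (g + 1) → Kˣ) := by
  have hp0 : NeZero p := ⟨hp.ne_zero⟩
  intro θ hθ h
  rw [Fin.prod_univ_castSucc] at h
  simp only [Fin.snoc_castSucc, Fin.snoc_last] at h
  by_cases h0 : θ (Fin.last g) = 0
  · rw [h0, ZMod.val_zero, pow_zero, mul_one] at h
    refine hu (fun k => θ k.castSucc) (fun h1 => hθ ?_) h
    funext k
    refine Fin.lastCases ?_ (fun j => ?_) k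
    · exact h0
    · exact congrFun h1 j
  · apply hx
    obtain ⟨y, hy⟩ := h
    have hcop : Nat.Coprime (θ (Fin.last g)).val p := by
      refine (Nat.Coprime.symm ?_)
      rw [hp.coprime_iff_not_dvd]
      intro h
      apply h0
      have h2 := (ZMod.natCast_eq_zero_iff (θ (Fin.last g)).val p).2 h
      rwa [ZMod.natCast_zmod_val] at h2
    obtain ⟨m, hm⟩ := Nat.exists_mul_mod_eq_one_of_coprime hcop hp.one_lt
    obtain ⟨q, hq⟩ : ∃ q, (θ (Fin.last g)).val * m = 1 + p * q := by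
      refine ⟨(θ (Fin.last g)).val * m / p, ?_⟩
      conv_lhs => rw [← Nat.mod_add_div ((θ (Fin.last g)).val * m) p]
      rw [hm.2]
    exact ⟨_, _, ext_alg u (fun k => (θ (Fin.castSucc k)).val) x y hp.one_lt.le hy hq⟩

theorem gs_exists (hp : p.Prime) (hζ : IsPrimitiveRoot ζ p) (D : RD0 K p ζ) (Ω : Type) [Field Ω]
    [Algebra K Ω] [IsAlgClosure K Ω] : Nonempty (GS D Ω) := by
  obtain ⟨N, hN⟩ := ind_bd (p := p) hp D.S0
  -- a maximal independent family
  have hex : ∃ g : ℕ, (∃ u : Fin g → Kˣ, (∀ i, TUnit D.S0 (u i)) ∧ Ind p u) ∧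
      ∀ g' : ℕ, (∃ u : Fin g' → Kˣ, (∀ i, TUnit D.S0 (u i)) ∧ Ind p u) → g' ≤ g := by
    have h0 : ∃ u : Fin 0 → Kˣ, (∀ i, TUnit D.S0 (u i)) ∧ Ind p u :=
      ⟨fun i => i.elim0, fun i => i.elim0, fun θ hθ => absurd (Subsingleton.elim θ 0) hθ⟩
    let P : ℕ → Prop := fun g => ∃ u : Fin g → Kˣ, (∀ i, TUnit D.S0 (u i)) ∧ Ind p u
    have hb : ∀ g, P g → g ≤ N := fun g ⟨u, h1, h2⟩ => hN g u h1 h2
    refine ⟨Nat.findGreatest P N, ?_, fun g' hg' => Nat.le_findGreatest (hb g' hg') hg'⟩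
    exact Nat.findGreatest_spec (P := P) (Nat.zero_le N) h0
  obtain ⟨g, ⟨u, hu, hi⟩, hmax⟩ := hex
  have ha : ∀ j : Fin g, ∃ σ : Gal(Ω/K), ∀ k, kk p ζ (u k) σ = if k = j then 1 else 0 := fun j =>
    kk_surj hp hζ u hi fun k => if k = j then 1 else 0
  choose a ha using ha
  refine ⟨⟨g, a, u, hu, fun i j => ha j i, fun x hx => ?_⟩⟩
  by_contra hcon
  have h1 := hmax (g + 1) ⟨(Fin.snoc u x : Fin (g + 1) → Kˣ), fun i => by
    refine Fin.lastCases ?_ (fun j => ?_) i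
    · rw [Fin.snoc_last]
      exact hx
    · rw [Fin.snoc_castSucc]
      exact hu j, ind_ext hp u hi x hcon⟩
  omega

end H77.WD
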