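import Pool.Agent.H77.WD.Wrd
import Pool.Agent.H63.MC.CTyp

/-!
# [H77 WD TYF] finitely many local types, separation by finitely many elements

* `ty_fin`: for a finite `p`-group `H` there are only finitely many types at `S0` of homomorphisms `Γ → H` of finite type (induction over a central subgroup
  of order `p`, as `ctyp_main` in H63/MC/CTyp.lean).
* `sep`: for every `M` there are finitely many elements `dl k` of the decomposition groups at `S0` such that homomorphisms of finite type to a `p`-group of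
  order `≤ M` which agree at the `dl k` agree on the decomposition groups at `S0`.
-/

set_option autoImplicit false
set_option linter.dupNamespace false

open scoped NumberField
open IsDedekindDomain
open scoped Classical

noncomputable section

namespace H77.WD

open H63.MA H38.BB H38.BG H57.PC H57.BRA

variable {K : Type} [Field K] [NumberField K] {Ω : Type} [Field Ω] [Algebra K Ω] [IsAlgClosure K Ω]
  {p : ℕ} {ζ : K}

omit [NumberField K] [IsAlgClosure K Ω] in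
theorem ft_comp {H H' : Type} [Group H] [Group H'] (f : H →* H') {φ : Gal(Ω/K) →* H}
    (h : H38.ML.FT φ) : H38.ML.FT (f.comp φ) := by
  obtain ⟨E, hE, hk⟩ := h
  refine ⟨E, hE, fun σ hσ => ?_⟩
  have h1 := MonoidHom.mem_ker.1 (hk hσ)
  rw [MonoidHom.mem_ker, MonoidHom.comp_apply, h1, map_one]

private theorem ty_step (hp : p.Prime) (hp2 : MOne p K) (hζ : IsPrimitiveRoot ζ p)
    (D : RD0 K p ζ) (L : LDs D Ω) (Q : DP K Ω) {G G' : Type} [Group G] [Group G'] [Finite G]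
    (π : G →* G') {W : Type} [CommGroup W] [Finite W] (hW : ∀ w : W, w ^ p = 1) (i : W →* G)
    (hi : Function.Injective i) (hc : ∀ z g, i z * g = g * i z)
    (hsur : ∀ g, π g = 1 → ∃ w, i w = g) (R1 : Finset (Gal(Ω/K) →* G'))
    (h1 : ∀ φ : Gal(Ω/K) →* G', H38.ML.FT φ → ∃ φ' ∈ R1, Teq D.S0 Q φ φ') :
    ∃ R : Finset (Gal(Ω/K) →* G), (∀ φ ∈ R, H38.ML.FT φ) ∧
      ∀ φ : Gal(Ω/K) →* G, H38.ML.FT φ → ∃ φ' ∈ R, Teq D.S0 Q φ φ' := by
  have hp0 : NeZero p := ⟨hp.ne_zero⟩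
  have hone : H38.ML.FT (1 : Gal(Ω/K) →* G) := ⟨⊥, inferInstance, fun σ _ => by
    rw [MonoidHom.mem_ker, MonoidHom.one_apply]⟩
  obtain ⟨R2, h2', h2⟩ := hw_types hp hp2 hζ D L Q hW
  let g : (Gal(Ω/K) →* G') → (Gal(Ω/K) →* G) := fun χ' =>
    if h : ∃ φ : Gal(Ω/K) →* G, H38.ML.FT φ ∧ Teq D.S0 Q (π.comp φ) χ' then h.choose else 1
  have hg : ∀ χ', (∃ φ : Gal(Ω/K) →* G, H38.ML.FT φ ∧ Teq D.S0 Q (π.comp φ) χ') →
      H38.ML.FT (g χ') ∧ Teq D.S0 Q (π.comp (g χ')) χ' := by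
    intro χ' h
    have e1 : g χ' = h.choose := by
      simp only [g]
      rw [dif_pos h]
    rw [e1]
    exact h.choose_spec
  have hg1 : ∀ χ', H38.ML.FT (g χ') := by
    intro χ'
    by_cases h : ∃ φ : Gal(Ω/K) →* G, H38.ML.FT φ ∧ Teq D.S0 Q (π.comp φ) χ'
    · exact (hg χ' h).1
    · have e1 : g χ' = 1 := by
        simp only [g]
        rw [dif_neg h]
      rw [e1]
      exact hone
  refine ⟨(R1 ×ˢ R2).image fun q => ctypF i hc (g q.1) q.2, ?_, ?_⟩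
  · intro φ hφ
    obtain ⟨q, hq, rfl⟩ := Finset.mem_image.1 hφ
    exact ctypF_ft i hc _ _ (hg1 q.1) (h2' q.2 (Finset.mem_product.1 hq).2)
  · intro φ hφ
    obtain ⟨χ', hχ', hT⟩ := h1 _ (ft_comp π hφ)
    obtain ⟨hg2, hg3⟩ := hg χ' ⟨φ, hφ, hT⟩
    -- the local homomorphisms
    have hloc : ∀ v, v ∈ D.S0 → ∀ u ∈ dec (K := K) (Q.P v), π ((g χ' u)⁻¹ * φ u) = 1 := by
      intro v hv u hu
      have e1 := hT v hv u hu
      have e2 := hg3 v hv u hu
      rw [MonoidHom.comp_apply] at e1 e2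
      rw [map_mul, map_inv, e1, e2, inv_mul_cancel]
    have hδ : ∀ v, ∃ δ : dec (K := K) (Q.P v) →* W, v ∈ D.S0 →
        ∀ u : dec (K := K) (Q.P v), i (δ u) = (g χ' (u : Gal(Ω/K)))⁻¹ * φ (u : Gal(Ω/K)) := by
      intro v
      by_cases hv : v ∈ D.S0
      · choose δ hδ using fun u : dec (K := K) (Q.P v) => hsur _ (hloc v hv u u.2)
        refine ⟨MonoidHom.mk' δ ?_, fun _ u => hδ u⟩
        intro u w
        apply hi
        rw [map_mul, hδ, hδ w, Subgroup.coe_mul, map_mul, map_mul, mul_inv_rev]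
        calc (g χ' (w : Gal(Ω/K)))⁻¹ * (g χ' (u : Gal(Ω/K)))⁻¹ *
              (φ (u : Gal(Ω/K)) * φ (w : Gal(Ω/K)))
            = (g χ' (w : Gal(Ω/K)))⁻¹ * ((g χ' (u : Gal(Ω/K)))⁻¹ * φ (u : Gal(Ω/K))) *
                φ (w : Gal(Ω/K)) := by simp only [mul_assoc]
          _ = (g χ' (w : Gal(Ω/K)))⁻¹ * i (δ u) * φ (w : Gal(Ω/K)) := by rw [hδ u]
          _ = i (δ u) * (g χ' (w : Gal(Ω/K)))⁻¹ * φ (w : Gal(Ω/K)) := by rw [hc]
          _ = i (δ u) * ((g χ' (w : Gal(Ω/K)))⁻¹ * φ (w : Gal(Ω/K))) := by rw [mul_assoc]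
      · exact ⟨1, fun h => absurd h hv⟩
    choose δ hδ using hδ
    obtain ⟨χ, hχ, hχδ⟩ := hw_lock hp hζ D Q hW δ (by
      intro v hv
      obtain ⟨E, hE, hle⟩ := hφ
      obtain ⟨E', hE', hle'⟩ := hg2
      refine ⟨E ⊔ E', inferInstance, fun u hu => ?_⟩
      have e1 : (u : Gal(Ω/K)) ∈ E.fixingSubgroup :=
        IntermediateField.fixingSubgroup_antitone le_sup_left hu
      have e2 : (u : Gal(Ω/K)) ∈ E'.fixingSubgroup :=
        IntermediateField.fixingSubgroup_antitone le_sup_right hu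
      have e3 := hle e1
      have e4 := hle' e2
      rw [MonoidHom.mem_ker] at e3 e4
      apply hi
      rw [hδ v hv, e3, e4, inv_one, one_mul, map_one])
    obtain ⟨χ2, hχ2, hT2⟩ := h2 χ hχ
    refine ⟨ctypF i hc (g χ') χ2, Finset.mem_image.2 ⟨(χ', χ2), Finset.mem_product.2 ⟨hχ', hχ2⟩,
      rfl⟩, fun v hv σ hσ => ?_⟩
    rw [ctypF_apply, ← hT2 v hv σ hσ, hχδ v hv ⟨σ, hσ⟩, hδ v hv]
    rw [mul_inv_cancel_left]

theorem ty_fin (hp : p.Prime) (hp2 : MOne p K) (hζ : IsPrimitiveRoot ζ p) (D : RD0 K p ζ)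
    (L : LDs D Ω) (Q : DP K Ω) (n : ℕ) : ∀ (H : Type) [Group H] [Finite H], Nat.card H = n →
    IsPGroup p H → ∃ R : Finset (Gal(Ω/K) →* H), (∀ φ ∈ R, H38.ML.FT φ) ∧
      ∀ φ : Gal(Ω/K) →* H, H38.ML.FT φ → ∃ φ' ∈ R, Teq D.S0 Q φ φ' := by
  have hp0 : NeZero p := ⟨hp.ne_zero⟩
  induction n using Nat.strong_induction_on with
  | _ n ih =>
    intro H _ _ hn hH
    rcases subsingleton_or_nontrivial H with hs | hnt
    · refine ⟨{1}, fun φ hφ => ?_, fun φ _ => ⟨1, Finset.mem_singleton_self _, fun v _ σ _ =>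
        Subsingleton.elim _ _⟩⟩
      rw [Finset.mem_singleton.1 hφ]
      exact ⟨⊥, inferInstance, fun σ _ => by rw [MonoidHom.mem_ker, MonoidHom.one_apply]⟩
    · obtain ⟨i, hi, hc⟩ := pg_cen hp hH hnt
      have hnorm : i.range.Normal := by
        refine ⟨fun x hx g => ?_⟩
        obtain ⟨z, rfl⟩ := hx
        rw [← hc, mul_inv_cancel_right]
        exact ⟨z, rfl⟩
      have hlt : Nat.card (H ⧸ i.range) < n := by
        have h1 := Subgroup.card_eq_card_quotient_mul_card_subgroup i.range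
        have h2 : Nat.card i.range = p := by
          rw [← Nat.card_congr (MonoidHom.ofInjective hi).toEquiv,
            Nat.card_congr Multiplicative.toAdd, Nat.card_zmod]
        have h3 : 0 < Nat.card (H ⧸ i.range) := Nat.card_pos
        rw [h2, hn] at h1
        rw [h1]
        exact lt_mul_of_one_lt_right h3 hp.one_lt
      obtain ⟨R1, -, h1⟩ := ih _ hlt (H ⧸ i.range) rfl (hH.to_quotient _)
      have : Finite (Multiplicative (ZMod p)) := inferInstanceAs (Finite (ZMod p))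
      have hW : ∀ w : Multiplicative (ZMod p), w ^ p = 1 := by
        intro w
        apply Multiplicative.toAdd.injective
        rw [toAdd_pow, toAdd_one, nsmul_eq_mul, ZMod.natCast_self, zero_mul]
      exact ty_step hp hp2 hζ D L Q (QuotientGroup.mk' i.range) hW i hi hc
        (fun g hg => (QuotientGroup.eq_one_iff g).1 hg) R1 h1

theorem sep (hp : p.Prime) (hp2 : MOne p K) (hζ : IsPrimitiveRoot ζ p) (D : RD0 K p ζ)
    (L : LDs D Ω) (Q : DP K Ω) (M : ℕ) : ∃ F : Finset Gal(Ω/K),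
    (∀ δ ∈ F, ∃ v ∈ D.S0, δ ∈ dec (K := K) (Q.P v)) ∧
      ∀ (H : Type) [Group H] [Finite H], IsPGroup p H → Nat.card H ≤ M →
        ∀ φ φ' : Gal(Ω/K) →* H, H38.ML.FT φ → H38.ML.FT φ' → (∀ δ ∈ F, φ δ = φ' δ) →
          Teq D.S0 Q φ φ' := by
  -- one group
  have key : ∀ (H : Type) [Group H] [Finite H], IsPGroup p H → ∃ F : Finset Gal(Ω/K),
      (∀ δ ∈ F, ∃ v ∈ D.S0, δ ∈ dec (K := K) (Q.P v)) ∧
        ∀ φ φ' : Gal(Ω/K) →* H, H38.ML.FT φ → H38.ML.FT φ' → (∀ δ ∈ F, φ δ = φ' δ) →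
          Teq D.S0 Q φ φ' := by
    intro H _ _ hH
    obtain ⟨R, -, hR⟩ := ty_fin hp hp2 hζ D L Q _ H rfl hH
    have h1 : ∀ x : (Gal(Ω/K) →* H) × (Gal(Ω/K) →* H), ∃ δ : Gal(Ω/K),
        ¬ Teq D.S0 Q x.1 x.2 → (∃ v ∈ D.S0, δ ∈ dec (K := K) (Q.P v)) ∧ x.1 δ ≠ x.2 δ := by
      intro x
      by_cases h : Teq D.S0 Q x.1 x.2
      · exact ⟨1, fun h' => absurd h h'⟩
      · unfold Teq at h
        push Not at h
        obtain ⟨v, hv, σ, hσ, hne⟩ := h
        exact ⟨σ, fun _ => ⟨⟨v, hv, hσ⟩, hne⟩⟩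
    choose f hf using h1
    refine ⟨((R ×ˢ R).filter fun x => ¬ Teq D.S0 Q x.1 x.2).image f, fun δ hδ => ?_,
      fun φ φ' hφ hφ' h => ?_⟩
    · obtain ⟨x, hx, rfl⟩ := Finset.mem_image.1 hδ
      exact (hf x (Finset.mem_filter.1 hx).2).1
    · obtain ⟨ψ, hψ, h2⟩ := hR φ hφ
      obtain ⟨ψ', hψ', h3⟩ := hR φ' hφ'
      by_cases h4 : Teq D.S0 Q ψ ψ'
      · intro v hv σ hσ
        rw [h2 v hv σ hσ, h3 v hv σ hσ, h4 v hv σ hσ]
      · exfalso
        obtain ⟨⟨v, hv, hd⟩, h5⟩ := hf (ψ, ψ') h4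
        apply h5
        have h6 := h (f (ψ, ψ')) (Finset.mem_image.2 ⟨(ψ, ψ'), Finset.mem_filter.2
          ⟨Finset.mem_product.2 ⟨hψ, hψ'⟩, h4⟩, rfl⟩)
        rw [← h2 v hv _ hd, ← h3 v hv _ hd]
        exact h6
  have h2 : ∀ P : Subgroup (Equiv.Perm (Fin M)), ∃ F : Finset Gal(Ω/K), IsPGroup p P →
      (∀ δ ∈ F, ∃ v ∈ D.S0, δ ∈ dec (K := K) (Q.P v)) ∧
        ∀ φ φ' : Gal(Ω/K) →* P, H38.ML.FT φ → H38.ML.FT φ' → (∀ δ ∈ F, φ δ = φ' δ) →
          Teq D.S0 Q φ φ' := by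
    intro P
    by_cases h : IsPGroup p P
    · obtain ⟨F, hF⟩ := key P h
      exact ⟨F, fun _ => hF⟩
    · exact ⟨∅, fun h' => absurd h' h⟩
  choose F hF using h2
  have : Fintype (Subgroup (Equiv.Perm (Fin M))) := Fintype.ofFinite _
  refine ⟨(Finset.univ.filter fun P : Subgroup (Equiv.Perm (Fin M)) => IsPGroup p P).biUnion F,
    fun δ hδ => ?_, fun H _ _ hH hM φ φ' hφ hφ' h => ?_⟩
  · obtain ⟨P, hP, hδ⟩ := Finset.mem_biUnion.1 hδ
    exact (hF P (Finset.mem_filter.1 hP).2).1 δ hδ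
  · obtain ⟨j, hj⟩ := emb H hM
    have hP : IsPGroup p j.range := by
      rintro ⟨_, x, rfl⟩
      obtain ⟨k, hk⟩ := hH x
      exact ⟨k, Subtype.ext (by
        change j x ^ (p ^ k) = 1
        rw [← map_pow, hk, map_one])⟩
    have h3 := (hF j.range hP).2 (j.rangeRestrict.comp φ) (j.rangeRestrict.comp φ')
      (ft_comp _ hφ) (ft_comp _ hφ') fun δ hδ => by
        rw [MonoidHom.comp_apply, MonoidHom.comp_apply,
          h δ (Finset.mem_biUnion.2 ⟨j.range, Finset.mem_filter.2 ⟨Finset.mem_univ _, hP⟩, hδ⟩)]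
    intro v hv σ hσ
    have h4 := congrArg Subtype.val (h3 v hv σ hσ)
    exact hj h4

end H77.WD
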