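import Mathlib

/-!
# [H77 WD PG] a proper subgroup of a finite `p`-group is killed by a nontrivial homomorphism to `ZMod p`;
a nontrivial `p`-group has a central subgroup of order `p`
-/

set_option autoImplicit false
set_option linter.dupNamespace false

noncomputable section

namespace H77.WD

theorem pg_char {p : ℕ} (hp : p.Prime) {P : Type} [Group P] [Finite P] (hP : IsPGroup p P)
    (M : Subgroup P) (hM : M ≠ ⊤) :
    ∃ f : P →* Multiplicative (ZMod p), f ≠ 1 ∧ ∀ x ∈ M, f x = 1 := by
  have hpf : Fact p.Prime := ⟨hp⟩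
  obtain ⟨N, hN, hMN⟩ := (eq_top_or_exists_le_coatom M).resolve_left hM
  have hnil : Group.IsNilpotent P := hP.isNilpotent
  have hnorm : N.Normal := Subgroup.NormalizerCondition.normal_of_coatom N
    Group.normalizerCondition_of_isNilpotent hN
  have hQ : IsPGroup p (P ⧸ N) := hP.to_quotient N
  have hne : N ≠ ⊤ := hN.1
  have hcard : Nat.card (P ⧸ N) = p := by
    have h1 : 1 < Nat.card (P ⧸ N) := by
      rw [← Subgroup.index_eq_card]
      rcases Nat.lt_or_ge 1 N.index with h | h
      · exact h
      · exfalso
        have h2 : N.index ≠ 0 := Subgroup.index_ne_zero_of_finite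
        have h3 : N.index = 1 := by omega
        exact hne (Subgroup.index_eq_one.1 h3)
    obtain ⟨k, hk⟩ := IsPGroup.iff_card.1 hQ
    have hk0 : k ≠ 0 := by
      rintro rfl
      rw [hk, pow_zero] at h1
      exact lt_irrefl _ h1
    have hdvd : p ∣ Nat.card (P ⧸ N) := by
      rw [hk]
      exact dvd_pow_self p hk0
    obtain ⟨x, hx⟩ := exists_prime_orderOf_dvd_card' p hdvd
    have hlt : N < (Subgroup.zpowers x).comap (QuotientGroup.mk' N) := by
      refine lt_of_le_of_ne (fun y hy => ?_) fun h => ?_
      · rw [Subgroup.mem_comap]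
        have : QuotientGroup.mk' N y = 1 := (QuotientGroup.eq_one_iff y).2 hy
        rw [this]
        exact Subgroup.one_mem _
      · obtain ⟨y, rfl⟩ := QuotientGroup.mk'_surjective N x
        have h2 : y ∈ N := by
          rw [h, Subgroup.mem_comap]
          exact Subgroup.mem_zpowers _
        have h3 : QuotientGroup.mk' N y = 1 := (QuotientGroup.eq_one_iff y).2 h2
        rw [h3, orderOf_one] at hx
        exact hp.one_lt.ne hx
    have htop := hN.2 _ hlt
    have h4 : Subgroup.zpowers x = ⊤ := by
      rw [eq_top_iff]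
      intro y _
      obtain ⟨z, rfl⟩ := QuotientGroup.mk'_surjective N y
      have : z ∈ (Subgroup.zpowers x).comap (QuotientGroup.mk' N) := by
        rw [htop]
        exact Subgroup.mem_top _
      exact this
    rw [← hx, ← Nat.card_zpowers, h4]
    exact (Nat.card_congr Subgroup.topEquiv.toEquiv).symm
  have hcard2 : Nat.card (Multiplicative (ZMod p)) = p := by
    rw [Nat.card_congr Multiplicative.toAdd, Nat.card_zmod]
  have e : P ⧸ N ≃* Multiplicative (ZMod p) := mulEquivOfPrimeCardEq hcard hcard2
  refine ⟨e.toMonoidHom.comp (QuotientGroup.mk' N), fun h => ?_, fun x hx => ?_⟩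
  · apply hne
    rw [eq_top_iff]
    intro y _
    have h1 := DFunLike.congr_fun h y
    rw [MonoidHom.comp_apply, MonoidHom.one_apply] at h1
    have h2 : QuotientGroup.mk' N y = 1 := by
      apply e.injective
      rw [map_one]
      exact h1
    exact (QuotientGroup.eq_one_iff y).1 h2
  · rw [MonoidHom.comp_apply]
    have h2 : QuotientGroup.mk' N x = 1 := (QuotientGroup.eq_one_iff x).2 (hMN hx)
    rw [h2, map_one]

theorem pg_cen {p : ℕ} (hp : p.Prime) {H : Type} [Group H] [Finite H] (hH : IsPGroup p H)
    (hn : Nontrivial H) : ∃ i : Multiplicative (ZMod p) →* H, Function.Injective i ∧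
      ∀ z g, i z * g = g * i z := by
  have hpf : Fact p.Prime := ⟨hp⟩
  have hc : Nontrivial (Subgroup.center H) := hH.center_nontrivial
  have hC : IsPGroup p (Subgroup.center H) := hH.to_subgroup _
  obtain ⟨k, hk⟩ := IsPGroup.iff_card.1 hC
  have hk0 : k ≠ 0 := by
    rintro rfl
    rw [pow_zero] at hk
    have := Finite.one_lt_card_iff_nontrivial.2 hc
    omega
  have hdvd : p ∣ Nat.card (Subgroup.center H) := by
    rw [hk]
    exact dvd_pow_self p hk0
  obtain ⟨x, hx⟩ := exists_prime_orderOf_dvd_card' p hdvd
  have hcard : Nat.card (Subgroup.zpowers x) = p := by rw [Nat.card_zpowers, hx]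
  have hcard2 : Nat.card (Multiplicative (ZMod p)) = p := by
    rw [Nat.card_congr Multiplicative.toAdd, Nat.card_zmod]
  have e : Multiplicative (ZMod p) ≃* Subgroup.zpowers x := mulEquivOfPrimeCardEq hcard2 hcard
  refine ⟨((Subgroup.center H).subtype.comp (Subgroup.zpowers x).subtype).comp e.toMonoidHom,
    ?_, fun z g => ?_⟩
  · intro a b h
    apply e.injective
    apply Subtype.ext
    apply Subtype.ext
    exact h
  · have h1 := (e z).1.2
    rw [Subgroup.mem_center_iff] at h1
    exact (h1 g).symm

end H77.WD
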