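import Pool.Agent.H77.WD.Ch
import Pool.Agent.H77.WD.Pg

/-!
# [H77 WD FRA] honest homomorphisms to `p`-groups: generators, finiteness, inertia

* `fra`: the image of an honest homomorphism is generated by the values at `t_v` (`v ∈ Z`) and `a_i`.
* `hon_eq`: honest homomorphisms are determined by these values; `hon_fin`: finitely many.
* `hon_inr`, `hon_of`: the conditions on `inr L v`.
-/

set_option autoImplicit false
set_option linter.dupNamespace false

open scoped NumberField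
open IsDedekindDomain
open scoped Classical

noncomputable section

namespace H77.WD

open H63.MA H38.BB H38.BG H57.PC H57.BRA

variable {K : Type} [Field K] [NumberField K] {Ω : Type} [Field Ω] [Algebra K Ω] [IsAlgClosure K Ω]
  {p : ℕ} {ζ : K}

theorem hat_mem {D : RD0 K p ζ} (L : LDs D Ω) (A : GS D Ω) {H : Type} [Group H]
    (φ : Gal(Ω/K) →* H) (w : FW A) : hat L A φ w ∈ φ.range := by
  have h : (hat L A φ).range ≤ φ.range := by
    unfold hat
    rw [FreeGroup.range_lift_eq_closure, Subgroup.closure_le]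
    rintro _ ⟨x, rfl⟩
    rcases x with v | i
    · exact ⟨_, rfl⟩
    · exact ⟨_, rfl⟩
  exact h ⟨w, rfl⟩

theorem fra (hp : p.Prime) (hζ : IsPrimitiveRoot ζ p) {D : RD0 K p ζ} (L : LDs D Ω) (A : GS D Ω)
    (Z : Finset (Pl K)) {H : Type} [Group H] [Finite H] (φ : Gal(Ω/K) →* H) (h : Hon L Z φ)
    (hP : IsPGroup p φ.range) : (OnZ A Z).map (hat L A φ) = φ.range := by
  refine le_antisymm ?_ ?_
  · rintro _ ⟨w, -, rfl⟩
    exact hat_mem L A φ w
  · by_contra hcon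
    set M : Subgroup φ.range := ((OnZ A Z).map (hat L A φ)).subgroupOf φ.range with hM
    have hM1 : M ≠ ⊤ := fun h1 => hcon (Subgroup.subgroupOf_eq_top.1 h1)
    obtain ⟨f, hf1, hf2⟩ := pg_char hp hP M hM1
    set χ : Gal(Ω/K) →* Multiplicative (ZMod p) := f.comp φ.rangeRestrict with hχ
    have hft : H38.ML.FT χ := by
      obtain ⟨E, hE, hk⟩ := h.1
      refine ⟨E, hE, fun σ hσ => ?_⟩
      have h1 := MonoidHom.mem_ker.1 (hk hσ)
      rw [MonoidHom.mem_ker, hχ, MonoidHom.comp_apply]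
      have h2 : φ.rangeRestrict σ = 1 := Subtype.ext h1
      rw [h2, map_one]
    have h1 : χ = 1 := by
      refine ch_un hp hζ L A χ hft (fun v hv => ?_) fun i => ?_
      · by_cases hz : v ∈ Z
        · refine hf2 _ ?_
          rw [hM, Subgroup.mem_subgroupOf]
          refine ⟨FreeGroup.of (Sum.inl v), Subgroup.subset_closure (Or.inl ⟨v, hz, rfl⟩), ?_⟩
          rw [hat_inl]
          rfl
        · rw [hχ, MonoidHom.comp_apply]
          have h2 : φ.rangeRestrict (L.t v) = 1 := Subtype.ext ((h.2 v hv).2 hz)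
          rw [h2, map_one]
      · refine hf2 _ ?_
        rw [hM, Subgroup.mem_subgroupOf]
        refine ⟨FreeGroup.of (Sum.inr i), Subgroup.subset_closure (Or.inr ⟨i, rfl⟩), ?_⟩
        rw [hat_inr]
        rfl
    apply hf1
    refine MonoidHom.ext fun x => ?_
    obtain ⟨σ, rfl⟩ := φ.rangeRestrict_surjective x
    exact DFunLike.congr_fun h1 σ

/-- honest homomorphisms with the same values at the generators are equal -/
theorem hon_eq (hp : p.Prime) (hζ : IsPrimitiveRoot ζ p) {D : RD0 K p ζ} (L : LDs D Ω) (A : GS D Ω)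
    (Z : Finset (Pl K)) {H : Type} [Group H] [Finite H] (φ φ' : Gal(Ω/K) →* H) (h : Hon L Z φ)
    (h' : Hon L Z φ') (hP : IsPGroup p φ.range) (hP' : IsPGroup p φ'.range)
    (ht : ∀ v ∈ Z, φ (L.t v) = φ' (L.t v)) (ha : ∀ i, φ (A.a i) = φ' (A.a i)) : φ = φ' := by
  have hh : Hon L Z (φ.prod φ') := by
    refine ⟨gtame_ft_prod _ _ h.1 h'.1, fun v hv => ⟨?_, fun hz => ?_⟩⟩
    · exact Prod.ext (h.2 v hv).1 (h'.2 v hv).1
    · exact Prod.ext ((h.2 v hv).2 hz) ((h'.2 v hv).2 hz)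
  have hPP : IsPGroup p (φ.prod φ').range := by
    rintro ⟨_, σ, rfl⟩
    obtain ⟨a, ha⟩ := hP ⟨φ σ, σ, rfl⟩
    obtain ⟨b, hb⟩ := hP' ⟨φ' σ, σ, rfl⟩
    have ha' : φ σ ^ (p ^ a) = 1 := congrArg Subtype.val ha
    have hb' : φ' σ ^ (p ^ b) = 1 := congrArg Subtype.val hb
    refine ⟨a + b, Subtype.ext (Prod.ext ?_ ?_)⟩
    · change φ σ ^ (p ^ (a + b)) = 1
      rw [pow_add, pow_mul, ha', one_pow]
    · change φ' σ ^ (p ^ (a + b)) = 1
      rw [pow_add, mul_comm, pow_mul, hb', one_pow]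
  have h1 := fra hp hζ L A Z _ hh hPP
  have h2 : (OnZ A Z).map (hat L A (φ.prod φ')) ≤
      (MonoidHom.fst H H).eqLocus (MonoidHom.snd H H) := by
    rw [Subgroup.map_le_iff_le_comap]
    unfold OnZ
    rw [Subgroup.closure_le]
    rintro _ (⟨v, hv, rfl⟩ | ⟨i, rfl⟩)
    · change (hat L A (φ.prod φ') (FreeGroup.of (Sum.inl v))).1 = (hat L A (φ.prod φ')
        (FreeGroup.of (Sum.inl v))).2
      rw [hat_inl]
      exact ht v hv
    · change (hat L A (φ.prod φ') (FreeGroup.of (Sum.inr i))).1 = (hat L A (φ.prod φ')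
        (FreeGroup.of (Sum.inr i))).2
      rw [hat_inr]
      exact ha i
  refine MonoidHom.ext fun σ => ?_
  have h3 : (φ.prod φ') σ ∈ (OnZ A Z).map (hat L A (φ.prod φ')) := by
    rw [h1]
    exact ⟨σ, rfl⟩
  exact h2 h3

theorem hon_fin (hp : p.Prime) (hζ : IsPrimitiveRoot ζ p) {D : RD0 K p ζ} (L : LDs D Ω)
    (A : GS D Ω) (Z : Finset (Pl K)) (H : Type) [Group H] [Finite H] :
    {φ : Gal(Ω/K) →* H | Hon L Z φ ∧ IsPGroup p φ.range}.Finite := by
  refine Set.Finite.of_finite_image (f := fun φ : Gal(Ω/K) →* H =>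
    ((fun v : Z => φ (L.t v), fun i : Fin A.g => φ (A.a i)) : (Z → H) × (Fin A.g → H)))
    (Set.toFinite _) ?_
  rintro φ ⟨h1, h2⟩ φ' ⟨h3, h4⟩ h
  have h5 := congrArg Prod.fst h
  have h6 := congrArg Prod.snd h
  exact hon_eq hp hζ L A Z φ φ' h1 h3 h2 h4 (fun v hv => congrFun h5 ⟨v, hv⟩) fun i =>
    congrFun h6 i

/-- the conditions on the inertia groups -/
theorem hon_inr (hp : p.Prime) (hζ : IsPrimitiveRoot ζ p) {D : RD0 K p ζ} (L : LDs D Ω)
    (Z : Finset (Pl K)) {H : Type} [Group H] [Finite H] (φ : Gal(Ω/K) →* H) (h : Hon L Z φ)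
    (hP : IsPGroup p φ.range) {v : Pl K} (hv : v ∉ D.S0) :
    ∀ τ ∈ inr L v, φ τ ^ p = 1 ∧ (v ∉ Z → φ τ = 1) := by
  have h1 := H48.MF.ing_inr hp hζ L hv φ h.1 fun τ _ => by
    obtain ⟨k, hk⟩ := hP ⟨φ τ, τ, rfl⟩
    exact ⟨k, congrArg Subtype.val hk⟩
  exact fun τ hτ => ⟨h1.2.1 (h.2 v hv).1 τ hτ, fun hz => h1.2.2 ((h.2 v hv).2 hz) τ hτ⟩

theorem hon_of {D : RD0 K p ζ} (L : LDs D Ω) (Z : Finset (Pl K)) {H : Type} [Group H]
    (φ : Gal(Ω/K) →* H) (hft : H38.ML.FT φ)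
    (h : ∀ v, v ∉ D.S0 → ∀ τ ∈ inr L v, φ τ ^ p = 1 ∧ (v ∉ Z → φ τ = 1)) : Hon L Z φ := by
  refine ⟨hft, fun v hv => ?_⟩
  have ht : L.t v ∈ inr L v := by
    unfold inr LDs.t
    rw [dif_pos hv, dif_pos hv]
    exact (L.ld v hv).ht
  exact h v hv _ ht

end H77.WD
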