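import Pool.Agent.H77.WD.Fra

/-!
# [H77 WD WRD] virtual words

* `emb`: a group of order `≤ M` embeds in the permutations of `Fin M`.
* `words`: for every `M`, `Z` and every `σ` there is a word in the letters `t_v`, `v ∈ Z`, and `a_i` which has the value `φ σ` for all honest `φ` to
  `p`-groups of order `≤ M`.
-/

set_option autoImplicit false
set_option linter.dupNamespace false

open scoped NumberField
open IsDedekindDomain
open scoped Classical

noncomputable section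

namespace H77.WD

open H63.MA H38.BB H38.BG H57.PC H57.BRA

theorem emb {M : ℕ} (H : Type) [Group H] [Finite H] (hM : Nat.card H ≤ M) :
    ∃ j : H →* Equiv.Perm (Fin M), Function.Injective j := by
  have : Fintype H := Fintype.ofFinite H
  have h1 : Fintype.card H ≤ Fintype.card (Fin M) := by
    rw [Fintype.card_fin, ← Nat.card_eq_fintype_card]
    exact hM
  obtain ⟨ι⟩ := Function.Embedding.nonempty_of_card_le h1
  refine ⟨(Equiv.Perm.viaEmbeddingHom ι).comp (MulAction.toPermHom H H), ?_⟩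
  have h2 : Function.Injective (MulAction.toPermHom H H) := by
    intro a b h
    have h3 := congrArg (fun f : Equiv.Perm H => f 1) h
    change a • (1 : H) = b • (1 : H) at h3
    rwa [smul_eq_mul, smul_eq_mul, mul_one, mul_one] at h3
  exact (Equiv.Perm.viaEmbeddingHom_injective ι).comp h2

variable {K : Type} [Field K] [NumberField K] {Ω : Type} [Field Ω] [Algebra K Ω]
  {p : ℕ} {ζ : K}

omit [NumberField K] in
theorem ft_pi {I : Type} [Finite I] {H : I → Type} [∀ i, Group (H i)]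
    (f : (i : I) → Gal(Ω/K) →* H i) (hf : ∀ i, H38.ML.FT (f i)) :
    H38.ML.FT (MonoidHom.pi f) := by
  choose E hE hk using hf
  refine ⟨⨆ i, E i, ?_, fun σ hσ => ?_⟩
  · exact IntermediateField.finiteDimensional_iSup_of_finite
  · rw [MonoidHom.mem_ker]
    funext i
    have h1 : σ ∈ (E i).fixingSubgroup := by
      rw [IntermediateField.mem_fixingSubgroup_iff] at hσ ⊢
      exact fun x hx => hσ x ((le_iSup E i) hx)
    exact MonoidHom.mem_ker.1 (hk i h1)

theorem pg_range {H H' : Type} [Group H] [Group H'] {G : Type} [Group G] (φ : G →* H) (j : H →* H')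
    (h : IsPGroup p φ.range) : IsPGroup p (j.comp φ).range := by
  rintro ⟨_, σ, rfl⟩
  obtain ⟨k, hk⟩ := h ⟨φ σ, σ, rfl⟩
  have h1 : φ σ ^ (p ^ k) = 1 := congrArg Subtype.val hk
  refine ⟨k, Subtype.ext ?_⟩
  change j (φ σ) ^ (p ^ k) = 1
  rw [← map_pow, h1, map_one]

theorem pg_pi {I : Type} [Finite I] {H : I → Type} [∀ i, Group (H i)] {G : Type} [Group G]
    (f : (i : I) → G →* H i) (hf : ∀ i, IsPGroup p (f i).range) :
    IsPGroup p (MonoidHom.pi f).range := by
  have : Fintype I := Fintype.ofFinite I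
  rintro ⟨_, σ, rfl⟩
  have h1 : ∀ i, ∃ k, f i σ ^ (p ^ k) = 1 := fun i => by
    obtain ⟨k, hk⟩ := hf i ⟨f i σ, σ, rfl⟩
    exact ⟨k, congrArg Subtype.val hk⟩
  choose k hk using h1
  refine ⟨∑ i, k i, Subtype.ext ?_⟩
  funext i
  change f i σ ^ (p ^ ∑ i, k i) = 1
  obtain ⟨m, hm⟩ : ∃ m, ∑ i, k i = k i + m :=
    ⟨_, (Finset.add_sum_erase Finset.univ k (Finset.mem_univ i)).symm⟩
  rw [hm, pow_add, pow_mul, hk, one_pow]

theorem words [IsAlgClosure K Ω] (hp : p.Prime) (hζ : IsPrimitiveRoot ζ p) {D : RD0 K p ζ}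
    (L : LDs D Ω) (A : GS D Ω) (M : ℕ) (Z : Finset (Pl K)) (σ : Gal(Ω/K)) :
    ∃ w ∈ OnZ A Z, ∀ (H : Type) [Group H] [Finite H], IsPGroup p H → Nat.card H ≤ M →
      ∀ φ : Gal(Ω/K) →* H, Hon L Z φ → hat L A φ w = φ σ := by
  have hfin := hon_fin hp hζ L A Z (Equiv.Perm (Fin M))
  set I : Type := {φ : Gal(Ω/K) →* Equiv.Perm (Fin M) // Hon L Z φ ∧ IsPGroup p φ.range} with hI
  have hIf : Finite I := hfin.to_subtype
  set Φ : Gal(Ω/K) →* (I → Equiv.Perm (Fin M)) := MonoidHom.pi fun ψ : I => ψ.1 with hΦ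
  have h1 : Hon L Z Φ := by
    refine ⟨ft_pi _ fun ψ => ψ.2.1.1, fun v hv => ⟨?_, fun hz => ?_⟩⟩
    · funext ψ
      exact (ψ.2.1.2 v hv).1
    · funext ψ
      exact (ψ.2.1.2 v hv).2 hz
  have h2 : IsPGroup p Φ.range := pg_pi _ fun ψ => ψ.2.2
  have h3 := fra hp hζ L A Z Φ h1 h2
  have h4 : Φ σ ∈ (OnZ A Z).map (hat L A Φ) := by
    rw [h3]
    exact ⟨σ, rfl⟩
  obtain ⟨w, hw, hw2⟩ := h4
  refine ⟨w, hw, fun H _ _ hH hM φ hφ => ?_⟩
  obtain ⟨j, hj⟩ := emb H hM
  have h5 : IsPGroup p φ.range := hH.to_subgroup _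
  let ψ : I := ⟨j.comp φ, hφ.comp j, pg_range φ j h5⟩
  have h6 : hat L A ψ.1 w = ψ.1 σ := by
    have h7 : ψ.1 = (Pi.evalMonoidHom _ ψ).comp Φ := rfl
    conv_lhs => rw [h7]
    rw [hat_comp, MonoidHom.comp_apply, hw2]
    rfl
  have h8 : hat L A ψ.1 w = j (hat L A φ w) := by
    change hat L A (j.comp φ) w = _
    rw [hat_comp]
    rfl
  apply hj
  rw [← h8, h6]
  rfl

end H77.WD
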