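import Pool.Agent.H77.WD.Gs

/-!
# [H77 WD CH] characters with prescribed values at the generators

* `ch_ex`: characters with arbitrary values at the `t_v` (finitely many `≠ 0`) and `a_i`.
* `ch_un`: a character of finite type which is trivial at all `t_v`, `v ∉ S0`, and all `a_i` is trivial.
-/

set_option autoImplicit false
set_option linter.dupNamespace false

open scoped NumberField
open IsDedekindDomain
open scoped Classical

noncomputable section

namespace H77.WD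

open H63.MA H38.BB H38.BG H57.PC H57.BRA

variable {K : Type} [Field K] [NumberField K] {Ω : Type} [Field Ω] [Algebra K Ω] [IsAlgClosure K Ω]
  {p : ℕ} {ζ : K}

/-- the Kummer character of an element at `t_v` -/
theorem kk_t (hp : p.Prime) (hζ : IsPrimitiveRoot ζ p) {D : RD0 K p ζ} (L : LDs D Ω) {v : Pl K}
    (hv : v ∉ D.S0) (x : Kˣ) : kk p ζ x (L.t v) = ord v x := by
  rw [gtw_t L v hv]
  exact ld_kk_t hp hζ (fun h => hv (D.above v h)) (D.pi_self v hv) (L.ld v hv) x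

theorem kk_pow_arg (hp : p.Prime) (hζ : IsPrimitiveRoot ζ p) (a : Kˣ) (n : ℕ) (σ : Gal(Ω/K)) :
    kk p ζ (a ^ n) σ = n * kk p ζ a σ := by
  have h := kk_zpow_arg hp hζ a (n : ℤ) σ
  rw [zpow_natCast] at h
  rw [h]
  push_cast
  rfl

theorem ch_ex (hp : p.Prime) (hζ : IsPrimitiveRoot ζ p) {D : RD0 K p ζ} (L : LDs D Ω) (A : GS D Ω)
    (T : Finset (Pl K)) (hT : ∀ v ∈ T, v ∉ D.S0) (n : Pl K → ZMod p) (m : Fin A.g → ZMod p) :
    ∃ χ : Gal(Ω/K) →* Multiplicative (ZMod p), H38.ML.FT χ ∧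
      (∀ v, v ∉ D.S0 → χ (L.t v) = Multiplicative.ofAdd (if v ∈ T then n v else 0)) ∧
      ∀ i, χ (A.a i) = Multiplicative.ofAdd (m i) := by
  have hp0 : NeZero p := ⟨hp.ne_zero⟩
  set c₁ : Kˣ := ∏ v ∈ T, D.pi v ^ (n v).val with hc1
  set k : Fin A.g → ZMod p := fun i => m i - kk p ζ c₁ (A.a i) with hk
  set c : Kˣ := c₁ * ∏ i, A.u i ^ (k i).val with hc
  refine ⟨kc p ζ Ω c, (kc_is hp hζ c).1, fun v hv => ?_, fun i => ?_⟩
  · have h1 : kk p ζ c (L.t v) = if v ∈ T then n v else 0 := by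
      rw [hc, kk_mul_arg hp hζ, hc1, kk_prod_arg hp hζ, kk_prod_arg hp hζ]
      have h2 : ∑ i, kk p ζ (A.u i ^ (k i).val) (L.t v) = 0 := by
        refine Finset.sum_eq_zero fun i _ => ?_
        rw [kk_t hp hζ L hv, ord_pow, A.tu i v hv, mul_zero, Int.cast_zero]
      rw [h2, add_zero]
      have h3 : ∀ w ∈ T, kk p ζ (D.pi w ^ (n w).val) (L.t v) = if w = v then n w else 0 := by
        intro w hw
        rw [kk_pow_arg hp hζ, ZMod.natCast_zmod_val]
        split_ifs with h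
        · rw [(kk_pi hp hζ D L w v (hT w hw) hv).1 h, mul_one]
        · rw [(kk_pi hp hζ D L w v (hT w hw) hv).2 h, mul_zero]
      rw [Finset.sum_congr rfl h3, Finset.sum_ite_eq']
    exact congrArg Multiplicative.ofAdd h1
  · have h1 : kk p ζ c (A.a i) = m i := by
      rw [hc, kk_mul_arg hp hζ, kk_prod_arg hp hζ Finset.univ fun i => A.u i ^ (k i).val]
      have h2 : ∑ j, kk p ζ (A.u j ^ (k j).val) (A.a i) = k i := by
        have h3 : ∀ j ∈ (Finset.univ : Finset (Fin A.g)),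
            kk p ζ (A.u j ^ (k j).val) (A.a i) = if j = i then k j else 0 := by
          intro j _
          rw [kk_pow_arg hp hζ, ZMod.natCast_zmod_val, A.dual]
          split_ifs
          · rw [mul_one]
          · rw [mul_zero]
        rw [Finset.sum_congr rfl h3, Finset.sum_ite_eq', if_pos (Finset.mem_univ i)]
      rw [h2, hk]
      simp only [add_sub_cancel]
    exact congrArg Multiplicative.ofAdd h1

theorem ch_un (hp : p.Prime) (hζ : IsPrimitiveRoot ζ p) {D : RD0 K p ζ} (L : LDs D Ω) (A : GS D Ω)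
    (χ : Gal(Ω/K) →* Multiplicative (ZMod p)) (hχ : H38.ML.FT χ)
    (ht : ∀ v, v ∉ D.S0 → χ (L.t v) = 1) (ha : ∀ i, χ (A.a i) = 1) : χ = 1 := by
  have hp0 : NeZero p := ⟨hp.ne_zero⟩
  obtain ⟨c, rfl⟩ := kc_all hp hζ χ hχ
  have h1 : ∀ v, v ∉ D.S0 → (p : ℤ) ∣ ord v c := by
    intro v hv
    have h2 : kk p ζ c (L.t v) = 0 := congrArg Multiplicative.toAdd (ht v hv)
    rw [kk_t hp hζ L hv] at h2
    exact (ZMod.intCast_zmod_eq_zero_iff_dvd _ p).1 h2
  obtain ⟨u, y, hu, hc⟩ := unit_of_ord hp D c h1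
  obtain ⟨n, z, hz⟩ := A.span u hu
  have hpow : ∀ (x : Kˣ) (σ : Gal(Ω/K)), kk p ζ (x ^ p) σ = 0 := by
    intro x σ
    rw [kk_pow_arg hp hζ, ZMod.natCast_self, zero_mul]
  have h3 : ∀ i, ((n i : ℕ) : ZMod p) = 0 := by
    intro i
    have h4 : kk p ζ c (A.a i) = 0 := congrArg Multiplicative.toAdd (ha i)
    rw [hc, hz, kk_mul_arg hp hζ, kk_mul_arg hp hζ, hpow, hpow, add_zero, add_zero,
      kk_prod_arg hp hζ] at h4
    rw [← h4]
    have h5 : ∀ j ∈ (Finset.univ : Finset (Fin A.g)),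
        kk p ζ (A.u j ^ n j) (A.a i) = if j = i then ((n j : ℕ) : ZMod p) else 0 := by
      intro j _
      rw [kk_pow_arg hp hζ, A.dual]
      split_ifs
      · rw [mul_one]
      · rw [mul_zero]
    rw [Finset.sum_congr rfl h5, Finset.sum_ite_eq', if_pos (Finset.mem_univ i)]
  have h6 : ∀ i, ∃ m, n i = p * m := fun i => (ZMod.natCast_eq_zero_iff _ _).1 (h3 i)
  choose m hm using h6
  have h7 : IsPow p c := by
    refine ⟨(∏ i, A.u i ^ m i) * z * y, ?_⟩
    rw [hc, hz, mul_pow, mul_pow, ← Finset.prod_pow]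
    congr 2
    refine Finset.prod_congr rfl fun i _ => ?_
    rw [hm i, mul_comm p, pow_mul]
  refine MonoidHom.ext fun σ => ?_
  have h8 := (kk_eq_zero_iff (Ω := Ω) hp hζ c).2 h7 σ
  exact congrArg Multiplicative.ofAdd h8

end H77.WD
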