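import Pool.Agent.H48.MF.Brf
import Pool.Agent.H48.MF.Ing

/-!
# H77-WD: virtual words (MP_b39724_nt, all classes), definitions

`K`, `p` (any prime, `K` contains the roots of unity of order `p ^ 2`), `D : RD0 K p ζ`, `L : LDs D Ω` as in `Pool/Agent/H48/MF/Brf.lean`. `Z` a finite set of
primes of `K` (those outside `S0` count).
* `Hon L Z φ` (honest): `φ` of finite type, `φ (L.t v) ^ p = 1` for `v ∉ S0`, and `φ (L.t v) = 1` for `v ∉ S0`, `v ∉ Z`. For homomorphisms with values in
  a `p`-group this is the same as the condition on all of `inr L v` (`hon_inr`, `hon_of`).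
* `GS D Ω`: a basis `u i` of the `S0`-units modulo `p`-th powers and dual elements `a i` of the Galois group.
* `FW A`: the free group on the letters `t_v` (`Sum.inl v`) and `a_i` (`Sum.inr i`), `hat L A φ` the evaluation of words by `φ`. `OnZ A Z`: the words in the
  letters `t_v`, `v ∈ Z`, and `a_i`.
-/

set_option autoImplicit false
set_option linter.dupNamespace false

open scoped NumberField
open IsDedekindDomain
open scoped Classical

noncomputable section

namespace H77.WD

open H63.MA H38.BB H38.BG H57.PC H57.BRA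

variable {K : Type} [Field K] [NumberField K] {Ω : Type} [Field Ω] [Algebra K Ω]
  {p : ℕ} {ζ : K} {D : RD0 K p ζ}

/-- honest homomorphisms: of finite type, order `p` on the generators `t_v`, unramified outside `S0` and `Z` -/
def Hon (L : LDs D Ω) (Z : Finset (Pl K)) {H : Type} [Group H] (φ : Gal(Ω/K) →* H) : Prop :=
  H38.ML.FT φ ∧ ∀ v, v ∉ D.S0 → φ (L.t v) ^ p = 1 ∧ (v ∉ Z → φ (L.t v) = 1)

/-- a basis of the `S0`-units modulo `p`-th powers and dual elements of the Galois group -/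
structure GS (D : RD0 K p ζ) (Ω : Type) [Field Ω] [Algebra K Ω] where
  g : ℕ
  a : Fin g → Gal(Ω/K)
  u : Fin g → Kˣ
  tu : ∀ i, TUnit D.S0 (u i)
  dual : ∀ i j, kk p ζ (u i) (a j) = if i = j then 1 else 0
  span : ∀ x : Kˣ, TUnit D.S0 x → ∃ (n : Fin g → ℕ) (y : Kˣ), x = (∏ i, u i ^ n i) * y ^ p

/-- words in the letters `t_v` and `a_i` -/
abbrev FW (A : GS D Ω) : Type := FreeGroup (Pl K ⊕ Fin A.g)

/-- the evaluation of words -/
def hat (L : LDs D Ω) (A : GS D Ω) {H : Type} [Group H] (φ : Gal(Ω/K) →* H) : FW A →* H :=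
  FreeGroup.lift (Sum.elim (fun v => φ (L.t v)) fun i => φ (A.a i))

/-- the words with letters in `Z` (and the `a_i`) -/
def OnZ (A : GS D Ω) (Z : Finset (Pl K)) : Subgroup (FW A) :=
  Subgroup.closure ((fun v => FreeGroup.of (Sum.inl v)) '' (Z : Set (Pl K)) ∪
    Set.range fun i => FreeGroup.of (Sum.inr i))

theorem hat_inl (L : LDs D Ω) (A : GS D Ω) {H : Type} [Group H] (φ : Gal(Ω/K) →* H) (v : Pl K) :
    hat L A φ (FreeGroup.of (Sum.inl v)) = φ (L.t v) := by
  unfold hat
  rw [FreeGroup.lift_apply_of]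
  rfl

theorem hat_inr (L : LDs D Ω) (A : GS D Ω) {H : Type} [Group H] (φ : Gal(Ω/K) →* H)
    (i : Fin A.g) : hat L A φ (FreeGroup.of (Sum.inr i)) = φ (A.a i) := by
  unfold hat
  rw [FreeGroup.lift_apply_of]
  rfl

/-- compatibility with homomorphisms of the target -/
theorem hat_comp (L : LDs D Ω) (A : GS D Ω) {H H' : Type} [Group H] [Group H'] (f : H →* H')
    (φ : Gal(Ω/K) →* H) : hat L A (f.comp φ) = f.comp (hat L A φ) := by
  refine FreeGroup.ext_hom _ _ fun x => ?_
  rcases x with v | i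
  · rw [hat_inl, MonoidHom.comp_apply, MonoidHom.comp_apply, hat_inl]
  · rw [hat_inr, MonoidHom.comp_apply, MonoidHom.comp_apply, hat_inr]

theorem Hon.comp {L : LDs D Ω} {Z : Finset (Pl K)} {H H' : Type} [Group H] [Group H'] (f : H →* H')
    {φ : Gal(Ω/K) →* H} (h : Hon L Z φ) : Hon L Z (f.comp φ) := by
  obtain ⟨⟨E, hE, hk⟩, h2⟩ := h
  refine ⟨⟨E, hE, fun σ hσ => ?_⟩, fun v hv => ⟨?_, fun hz => ?_⟩⟩
  · have h1 := MonoidHom.mem_ker.1 (hk hσ)
    rw [MonoidHom.mem_ker, MonoidHom.comp_apply, h1, map_one]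
  · rw [MonoidHom.comp_apply, ← map_pow, (h2 v hv).1, map_one]
  · rw [MonoidHom.comp_apply, (h2 v hv).2 hz, map_one]

end H77.WD
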