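import Pool.Agent.H77.WD.Tyf

/-!
# [H77 WD LFT] labelled words which satisfy the local conditions are honest

* `wd L A M Z σ`: the virtual word of `σ` (for honest homomorphisms to `p`-groups of order `≤ M`), `wd_spec`.
* `IsSep D Q M F`: the finite set `F` of elements of the decomposition groups at `S0` separates the local types in `p`-groups of order `≤ M` (`sep`).
* `lft` (V3): `θ` a homomorphism from the words to a `p`-group `H` of order `≤ M`, `θ t_v ^ p = 1`, `θ t_v = 1` for `v ∉ Z` and for `v ∈ S0`, `θ t_v` commutes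
  with the value of the Frobenius word of `v`, and `θ` agrees with a homomorphism `ψ : Γ → H` of finite type on the words of the `δ ∈ F`. Then `θ = hat φ`
  for an honest `φ`, and `φ`, `ψ` agree on the decomposition groups at `S0`.
-/

set_option autoImplicit false
set_option linter.dupNamespace false

open scoped NumberField
open IsDedekindDomain
open scoped Classical

noncomputable section

namespace H77.WD

open H63.MA H38.BB H38.BG H57.PC H57.BRA H48.MF

/-- the cocycle of a central extension by `ZMod p` -/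
theorem cx {p : ℕ} {H : Type} [Group H] (i : Multiplicative (ZMod p) →* H)
    (hi : Function.Injective i) (hc : ∀ z g, i z * g = g * i z) {G' : Type} [Group G'] (π : H →* G')
    (hπ : Function.Surjective π) (hk : ∀ g, π g = 1 ↔ ∃ z, i z = g) :
    ∃ (s : G' → H) (e : G' → G' → ZMod p) (c : H → ZMod p), s 1 = 1 ∧ (∀ x, π (s x) = x) ∧
      Coc p e ∧ (∀ x y, s x * s y = i (Multiplicative.ofAdd (e x y)) * s (x * y)) ∧
      (∀ h, h = i (Multiplicative.ofAdd (c h)) * s (π h)) ∧
      ∀ a b x, i (Multiplicative.ofAdd a) * s x = i (Multiplicative.ofAdd b) * s x → a = b := by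
  have hs : ∀ x : G', ∃ h : H, π h = x ∧ (x = 1 → h = 1) := by
    intro x
    by_cases hx : x = 1
    · exact ⟨1, by rw [map_one, hx], fun _ => rfl⟩
    · obtain ⟨h, hh⟩ := hπ x
      exact ⟨h, hh, fun h' => absurd h' hx⟩
  choose s hs1 hs2 using hs
  have hker : ∀ g h : H, π g = π h → ∃ a : ZMod p, g = i (Multiplicative.ofAdd a) * h := by
    intro g h hgh
    obtain ⟨z, hz⟩ := (hk (g * h⁻¹)).1 (by rw [map_mul, map_inv, hgh, mul_inv_cancel])
    refine ⟨Multiplicative.toAdd z, ?_⟩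
    rw [ofAdd_toAdd, hz, inv_mul_cancel_right]
  have he : ∀ x y, ∃ a : ZMod p, s x * s y = i (Multiplicative.ofAdd a) * s (x * y) := by
    intro x y
    refine hker _ _ ?_
    rw [map_mul, hs1, hs1, hs1]
  choose e he using he
  have hcc : ∀ h, ∃ a : ZMod p, h = i (Multiplicative.ofAdd a) * s (π h) := fun h =>
    hker _ _ (by rw [hs1])
  choose c hcc using hcc
  have hinj : ∀ (a b : ZMod p) (h : H), i (Multiplicative.ofAdd a) * h =
      i (Multiplicative.ofAdd b) * h → a = b := fun a b h hab =>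
    Multiplicative.ofAdd.injective (hi (mul_right_cancel hab))
  refine ⟨s, e, c, hs2 1 rfl, hs1, ⟨fun a => ?_, fun a => ?_, fun a b d => ?_⟩, he, hcc,
    fun a b x h => hinj a b _ h⟩
  · have h1 := he 1 a
    rw [hs2 1 rfl, one_mul, one_mul] at h1
    refine hinj _ _ (s a) ?_
    rw [← h1, ofAdd_zero, map_one, one_mul]
  · have h1 := he a 1
    rw [hs2 1 rfl, mul_one, mul_one] at h1
    refine hinj _ _ (s a) ?_
    rw [← h1, ofAdd_zero, map_one, one_mul]
  · refine hinj _ _ (s (a * b * d)) ?_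
    have h1 : s a * (s b * s d) = i (Multiplicative.ofAdd (e b d + e a (b * d))) *
        s (a * b * d) := by
      rw [he b d, ← mul_assoc, ← hc, mul_assoc, he a (b * d), ← mul_assoc, ofAdd_add, map_mul,
        ← mul_assoc a]
    have h2 : s a * s b * s d = i (Multiplicative.ofAdd (e (a * b) d + e a b)) *
        s (a * b * d) := by
      rw [he a b, mul_assoc, he (a * b) d, ← mul_assoc, add_comm, ofAdd_add, map_mul]
    rw [← h1, ← h2, mul_assoc]

variable {K : Type} [Field K] [NumberField K] {Ω : Type} [Field Ω] [Algebra K Ω]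
  {p : ℕ} {ζ : K}

/-- the virtual word of `σ` -/
def wd {D : RD0 K p ζ} (L : LDs D Ω) (A : GS D Ω) (M : ℕ) (Z : Finset (Pl K)) (σ : Gal(Ω/K)) :
    FW A :=
  if h : ∃ w ∈ OnZ A Z, ∀ (H : Type) [Group H] [Finite H], IsPGroup p H → Nat.card H ≤ M →
    ∀ φ : Gal(Ω/K) →* H, Hon L Z φ → hat L A φ w = φ σ then h.choose else 1

/-- `F` separates the local types at `S0` -/
def IsSep (D : RD0 K p ζ) (Q : DP K Ω) (M : ℕ) (F : Finset Gal(Ω/K)) : Prop :=
  (∀ δ ∈ F, ∃ v ∈ D.S0, δ ∈ dec (K := K) (Q.P v)) ∧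
    ∀ (H : Type) [Group H] [Finite H], IsPGroup p H → Nat.card H ≤ M →
      ∀ φ φ' : Gal(Ω/K) →* H, H38.ML.FT φ → H38.ML.FT φ' → (∀ δ ∈ F, φ δ = φ' δ) →
        Teq D.S0 Q φ φ'

variable [IsAlgClosure K Ω]

theorem wd_mem (hp : p.Prime) (hζ : IsPrimitiveRoot ζ p) {D : RD0 K p ζ}
    (L : LDs D Ω) (A : GS D Ω) (M : ℕ) (Z : Finset (Pl K)) (σ : Gal(Ω/K)) :
    wd L A M Z σ ∈ OnZ A Z := by
  have h := words hp hζ L A M Z σ
  unfold wd
  rw [dif_pos h]
  exact h.choose_spec.1

theorem wd_spec (hp : p.Prime) (hζ : IsPrimitiveRoot ζ p) {D : RD0 K p ζ}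
    (L : LDs D Ω) (A : GS D Ω) (M : ℕ) (Z : Finset (Pl K)) (σ : Gal(Ω/K)) (H : Type) [Group H]
    [Finite H] (hH : IsPGroup p H) (hM : Nat.card H ≤ M) (φ : Gal(Ω/K) →* H) (hφ : Hon L Z φ) :
    hat L A φ (wd L A M Z σ) = φ σ := by
  have h := words hp hζ L A M Z σ
  unfold wd
  rw [dif_pos h]
  exact h.choose_spec.2 H hH hM φ hφ

theorem lft (hp : p.Prime) (hp2 : MOne p K) (hζ : IsPrimitiveRoot ζ p) (hz : Z2 p K)
    {D : RD0 K p ζ} {L : LDs D Ω} (Q : DP K Ω) (Fr : FR L) (A : GS D Ω) (M : ℕ)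
    (Z : Finset (Pl K)) (F : Finset Gal(Ω/K)) (hF : IsSep D Q M F) (n : ℕ) :
    ∀ (H : Type) [Group H] [Finite H], Nat.card H = n → IsPGroup p H → Nat.card H ≤ M →
      ∀ θ : FW A →* H, (∀ v, θ (FreeGroup.of (Sum.inl v)) ^ p = 1) →
      (∀ v, v ∉ Z ∨ v ∈ D.S0 → θ (FreeGroup.of (Sum.inl v)) = 1) →
      (∀ v ∈ Z, v ∉ D.S0 → θ (FreeGroup.of (Sum.inl v)) * θ (wd L A M Z (Fr.F v)) =
        θ (wd L A M Z (Fr.F v)) * θ (FreeGroup.of (Sum.inl v))) →
      ∀ ψ : Gal(Ω/K) →* H, H38.ML.FT ψ → (∀ δ ∈ F, θ (wd L A M Z δ) = ψ δ) →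
      ∃ φ : Gal(Ω/K) →* H, Hon L Z φ ∧ hat L A φ = θ ∧ Teq D.S0 Q φ ψ := by
  have hp0 : NeZero p := ⟨hp.ne_zero⟩
  induction n using Nat.strong_induction_on with
  | _ n ih =>
    intro H _ _ hn hH hM θ h1 h2 h3 ψ hψ h4
    rcases subsingleton_or_nontrivial H with hs | hnt
    · refine ⟨1, ⟨⟨⊥, inferInstance, fun σ _ => by
        rw [MonoidHom.mem_ker, MonoidHom.one_apply]⟩, fun v _ =>
        ⟨Subsingleton.elim _ _, fun _ => Subsingleton.elim _ _⟩⟩, ?_, fun v _ σ _ =>
        Subsingleton.elim _ _⟩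
      exact MonoidHom.ext fun x => Subsingleton.elim _ _
    obtain ⟨i, hi, hc⟩ := pg_cen hp hH hnt
    have hnorm : i.range.Normal := by
      refine ⟨fun x hx g => ?_⟩
      obtain ⟨z, rfl⟩ := hx
      rw [← hc, mul_inv_cancel_right]
      exact ⟨z, rfl⟩
    have hlt : Nat.card (H ⧸ i.range) < n := by
      have h1 := Subgroup.card_eq_card_quotient_mul_card_subgroup i.range
      have h2 : Nat.card i.range = p := by
        rw [← Nat.card_congr (MonoidHom.ofInjective hi).toEquiv,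
          Nat.card_congr Multiplicative.toAdd, Nat.card_zmod]
      have h3 : 0 < Nat.card (H ⧸ i.range) := Nat.card_pos
      rw [h2, hn] at h1
      rw [h1]
      exact lt_mul_of_one_lt_right h3 hp.one_lt
    have hMq : Nat.card (H ⧸ i.range) ≤ M := by omega
    have hPq : IsPGroup p (H ⧸ i.range) := hH.to_quotient _
    set π : H →* H ⧸ i.range := QuotientGroup.mk' i.range with hπ
    have hker : ∀ g, π g = 1 ↔ ∃ z, i z = g := fun g => QuotientGroup.eq_one_iff g
    obtain ⟨s, e, c, hs1, hs2, he, hse, hcc, hsi⟩ := cx i hi hc π (QuotientGroup.mk'_surjective _)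
      hker
    -- the homomorphism to the quotient
    obtain ⟨φ', hφ1, hφ2, hφ3⟩ := ih _ hlt (H ⧸ i.range) rfl hPq hMq (π.comp θ)
      (fun v => by rw [MonoidHom.comp_apply, ← map_pow, h1, map_one])
      (fun v hv => by rw [MonoidHom.comp_apply, h2 v hv, map_one])
      (fun v hv hv0 => by
        simp only [MonoidHom.comp_apply]
        rw [← map_mul, h3 v hv hv0, map_mul])
      (π.comp ψ) (ft_comp π hψ) (fun δ hδ => by
        rw [MonoidHom.comp_apply, h4 δ hδ, MonoidHom.comp_apply])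
    have hrng : IsPGroup p φ'.range := hPq.to_subgroup _
    have hval : ∀ w, φ'.range = φ'.range → hat L A φ' w = π (θ w) := fun w _ => by
      rw [hφ2, MonoidHom.comp_apply]
    have hcmul : ∀ x y : H, c (x * y) = c x + c y + e (π x) (π y) := by
      intro x y
      refine hsi _ _ (π (x * y)) ?_
      rw [← hcc (x * y)]
      conv_lhs => rw [hcc x, hcc y]
      rw [map_mul, ofAdd_add, ofAdd_add, map_mul, map_mul]
      calc i (Multiplicative.ofAdd (c x)) * s (π x) * (i (Multiplicative.ofAdd (c y)) * s (π y))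
          = i (Multiplicative.ofAdd (c x)) * (s (π x) * i (Multiplicative.ofAdd (c y))) *
              s (π y) := by simp only [mul_assoc]
        _ = i (Multiplicative.ofAdd (c x)) * i (Multiplicative.ofAdd (c y)) *
              (s (π x) * s (π y)) := by
            rw [← hc]
            simp only [mul_assoc]
        _ = _ := by rw [hse, ← mul_assoc]
    have hTv : Tv (pb e φ') := by
      refine brg1f hp hp2 hζ hz (L := L) Q Fr he hφ1.1 (fun v hv => ?_) (fun v hv τ hτ => ?_)
        (fun v hv => ?_)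
      · obtain ⟨E, hE, hk⟩ := hψ
        refine ⟨fun σ => c (ψ σ), ⟨E, hE, fun σ u hu => ?_⟩, fun σ hσ τ hτ => ?_⟩
        · have h5 : ψ u = 1 := MonoidHom.mem_ker.1 (hk hu)
          change c (ψ (σ * u)) = c (ψ σ)
          rw [map_mul, h5, mul_one]
        · change c (ψ (σ * τ)) = c (ψ σ) + c (ψ τ) + e (φ' σ) (φ' τ)
          rw [map_mul, hcmul, hφ3 v hv σ hσ, hφ3 v hv τ hτ]
          rfl
      · exact (hon_inr hp hζ L Z φ' hφ1 hrng hv τ hτ).1
      · by_cases hvZ : v ∈ Z
        · have h5 : φ' (Fr.F v) = π (θ (wd L A M Z (Fr.F v))) := by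
            rw [← wd_spec hp hζ L A M Z (Fr.F v) _ hPq hMq φ' hφ1, hφ2]
            rfl
          have h6 : φ' (L.t v) = π (θ (FreeGroup.of (Sum.inl v))) := by
            rw [← hat_inl L A φ' v, hφ2]
            rfl
          rw [h5, h6]
          unfold iv
          rw [sub_eq_zero]
          have h7 := hcmul (θ (wd L A M Z (Fr.F v))) (θ (FreeGroup.of (Sum.inl v)))
          have h8 := hcmul (θ (FreeGroup.of (Sum.inl v))) (θ (wd L A M Z (Fr.F v)))
          rw [h3 v hvZ hv, h7] at h8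
          linear_combination h8
        · rw [(hφ1.2 v hv).2 hvZ]
          unfold iv
          rw [he.l1, he.r1, sub_zero]
    -- a lift
    obtain ⟨l, ⟨E, hE, hl1⟩, hl2⟩ := hTv
    have hl0 : l 1 = 0 := by
      have h5 := hl2 1 1
      unfold pb at h5
      rw [map_one, he.l1, add_zero, mul_one] at h5
      linear_combination -h5
    obtain ⟨E', hE', hk'⟩ := hφ1.1
    set φ₁ : Gal(Ω/K) →* H := MonoidHom.mk' (fun σ => i (Multiplicative.ofAdd (l σ)) * s (φ' σ))
      (by
        intro σ τ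
        rw [hl2, ofAdd_add, ofAdd_add, map_mul, map_mul]
        unfold pb
        calc i (Multiplicative.ofAdd (l σ)) * i (Multiplicative.ofAdd (l τ)) *
              i (Multiplicative.ofAdd (e (φ' σ) (φ' τ))) * s (φ' (σ * τ))
            = i (Multiplicative.ofAdd (l σ)) * i (Multiplicative.ofAdd (l τ)) *
              (s (φ' σ) * s (φ' τ)) := by rw [hse, map_mul φ', mul_assoc]
          _ = i (Multiplicative.ofAdd (l σ)) * (i (Multiplicative.ofAdd (l τ)) * s (φ' σ)) *
              s (φ' τ) := by simp only [mul_assoc]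
          _ = _ := by
            rw [hc (Multiplicative.ofAdd (l τ)) (s (φ' σ))]
            simp only [mul_assoc]) with hφ₁
    have e1 : ∀ σ, φ₁ σ = i (Multiplicative.ofAdd (l σ)) * s (φ' σ) := fun _ => rfl
    have hft1 : H38.ML.FT φ₁ := by
      refine ⟨E ⊔ E', inferInstance, fun u hu => ?_⟩
      have e2 : u ∈ E.fixingSubgroup := IntermediateField.fixingSubgroup_antitone le_sup_left hu
      have e3 : u ∈ E'.fixingSubgroup := IntermediateField.fixingSubgroup_antitone le_sup_right hu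
      have e4 : φ' u = 1 := MonoidHom.mem_ker.1 (hk' e3)
      have e5 : l u = 0 := by
        have := hl1 1 u e2
        rw [one_mul] at this
        rw [this, hl0]
      rw [MonoidHom.mem_ker, e1, e4, e5, hs1, ofAdd_zero, map_one, mul_one]
    have hπ1 : ∀ σ, π (φ₁ σ) = φ' σ := by
      intro σ
      have h5 : π (i (Multiplicative.ofAdd (l σ))) = 1 := (hker _).2 ⟨_, rfl⟩
      rw [e1, map_mul, h5, one_mul, hs2]
    -- correction by a character
    have hcor : ∀ g h : H, π g = π h → ∃ a : ZMod p, g = h * i (Multiplicative.ofAdd a) := by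
      intro g h hgh
      obtain ⟨z, hz'⟩ := (hker (h⁻¹ * g)).1 (by rw [map_mul, map_inv, hgh, inv_mul_cancel])
      refine ⟨Multiplicative.toAdd z, ?_⟩
      rw [ofAdd_toAdd, hz', mul_inv_cancel_left]
    have hn1 : ∀ v, ∃ a : ZMod p, v ∉ D.S0 →
        θ (FreeGroup.of (Sum.inl v)) = φ₁ (L.t v) * i (Multiplicative.ofAdd a) := by
      intro v
      by_cases hv : v ∈ D.S0
      · exact ⟨0, fun h => absurd hv h⟩
      · obtain ⟨a, ha⟩ := hcor (θ (FreeGroup.of (Sum.inl v))) (φ₁ (L.t v)) (by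
          rw [hπ1, ← hat_inl L A φ' v, hφ2]
          rfl)
        exact ⟨a, fun _ => ha⟩
    choose nv hnv using hn1
    have hm1 : ∀ j : Fin A.g, ∃ a : ZMod p,
        θ (FreeGroup.of (Sum.inr j)) = φ₁ (A.a j) * i (Multiplicative.ofAdd a) := by
      intro j
      refine hcor _ _ ?_
      rw [hπ1, ← hat_inr L A φ' j, hφ2]
      rfl
    choose mj hmj using hm1
    have hfin : {v : Pl K | v ∉ D.S0 ∧ φ₁ (L.t v) ≠ 1}.Finite := ram_finite hp D L φ₁ hft1
    set T : Finset (Pl K) := (hfin.toFinset ∪ Z).filter fun v => v ∉ D.S0 with hT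
    obtain ⟨χ, hχ1, hχ2, hχ3⟩ := ch_ex hp hζ L A T (fun v hv => (Finset.mem_filter.1 hv).2) nv mj
    set φ : Gal(Ω/K) →* H := ctypF i hc φ₁ χ with hφ
    have hft : H38.ML.FT φ := ctypF_ft i hc _ _ hft1 hχ1
    have ht : ∀ v, v ∉ D.S0 → φ (L.t v) = θ (FreeGroup.of (Sum.inl v)) := by
      intro v hv
      rw [hφ, ctypF_apply, hχ2 v hv]
      by_cases hvT : v ∈ T
      · rw [if_pos hvT, hnv v hv]
      · rw [if_neg hvT, ofAdd_zero, map_one, mul_one]
        have h5 : ¬ (φ₁ (L.t v) ≠ 1) ∧ v ∉ Z := by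
          rw [hT, Finset.mem_filter, Finset.mem_union, Set.Finite.mem_toFinset] at hvT
          push Not at hvT
          have h6 : ¬ ((v ∉ D.S0 ∧ φ₁ (L.t v) ≠ 1) ∨ v ∈ Z) := fun h => hv (hvT h)
          push Not at h6
          exact ⟨fun h => h (h6.1 hv), h6.2⟩
        rw [not_not.1 h5.1, h2 v (Or.inl h5.2)]
    have ha : ∀ j, φ (A.a j) = θ (FreeGroup.of (Sum.inr j)) := by
      intro j
      rw [hφ, ctypF_apply, hχ3, hmj]
    have hhat : hat L A φ = θ := by
      refine FreeGroup.ext_hom _ _ fun x => ?_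
      rcases x with v | j
      · rw [hat_inl]
        by_cases hv : v ∈ D.S0
        · have h5 : L.t v = 1 := by
            unfold LDs.t
            rw [dif_neg (not_not.2 hv)]
          rw [h5, map_one, h2 v (Or.inr hv)]
        · exact ht v hv
      · rw [hat_inr]
        exact ha j
    have hHon : Hon L Z φ := by
      refine ⟨hft, fun v hv => ⟨?_, fun hz => ?_⟩⟩
      · rw [ht v hv, h1]
      · rw [ht v hv, h2 v (Or.inl hz)]
    refine ⟨φ, hHon, hhat, hF.2 H hH hM φ ψ hft hψ fun δ hδ => ?_⟩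
    rw [← wd_spec hp hζ L A M Z δ H hH hM φ hHon, hhat]
    exact h4 δ hδ

end H77.WD
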